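import Pool.Agent.Helper32.EP.SPhase

/-! The normal form in the coordinate `-(q C y ^ q + q η / 2)`. -/

set_option autoImplicit false
set_option maxHeartbeats 1000000

open Topology Filter Metric Set

namespace Pool.Agent.Helper32.EP

open Pool.Agent.Helper65.EP

lemma binom (q : ℕ) {x : ℂ} (hx : ‖x‖ ≤ 1) :
    ‖(1 + x) ^ q - 1 - q * x‖ ≤ ((2 : ℝ) ^ q - q - 1) * ‖x‖ ^ 2 := by
  induction q with
  | zero => simp
  | succ q ih =>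
    have e1 : (1 + x) ^ (q + 1) - 1 - ((q + 1 : ℕ) : ℂ) * x =
        (1 + x) * ((1 + x) ^ q - 1 - q * x) + q * x ^ 2 := by
      push_cast
      ring
    rw [e1]
    refine (norm_add_le _ _).trans ?_
    rw [norm_mul, norm_mul, norm_pow, Complex.norm_natCast]
    have h2 : ‖1 + x‖ ≤ 2 := by
      have := norm_add_le (1 : ℂ) x
      rw [norm_one] at this
      linarith
    have h3 : ‖1 + x‖ * ‖(1 + x) ^ q - 1 - q * x‖ ≤ 2 * (((2 : ℝ) ^ q - q - 1) * ‖x‖ ^ 2) :=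
      mul_le_mul h2 ih (norm_nonneg _) (by norm_num)
    push_cast
    rw [pow_succ (2 : ℝ) q]
    nlinarith

lemma binom' (q : ℕ) {x : ℂ} (hx : ‖x‖ ≤ 1) :
    ‖(1 + x) ^ q - 1 - q * x‖ ≤ (2 : ℝ) ^ q * ‖x‖ ^ 2 := by
  refine (binom q hx).trans ?_
  have : (0 : ℝ) ≤ q := by positivity
  have := sq_nonneg ‖x‖
  gcongr
  linarith

/-- the coordinate `q C y ^ q` -/
lemma pt {q : ℕ} {C η y y' : ℂ} {ε : ℝ} (hq : 1 ≤ q) (hε0 : 0 ≤ ε) (hε1 : ε ≤ 1)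
    (hy : ‖y' - y - (η * y + C * y ^ (q + 1))‖ ≤ ε * (‖η‖ * ‖y‖ + ‖y‖ ^ (q + 1)))
    (hsm : (2 + ‖C‖) * (‖η‖ + ‖y‖ ^ q) ≤ 1) :
    ‖q * C * y' ^ q - q * C * y ^ q * (1 + q * η + q * C * y ^ q)‖ ≤
      ‖q * C * y ^ q‖ * ((q * ε + 2 ^ q * (2 + ‖C‖) ^ 2 * (‖η‖ + ‖y‖ ^ q)) *
        (‖η‖ + ‖y‖ ^ q)) := by
  have hq0 : q ≠ 0 := by omega
  rcases eq_or_ne y 0 with h0 | h0
  · subst h0
    have h1 : y' = 0 := by
      have : ‖y'‖ ≤ 0 := by simpa using hy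
      exact norm_le_zero_iff.1 this
    rw [h1]
    simp [hq0]
  have hn : 0 < ‖y‖ := norm_pos_iff.2 h0
  set S : ℝ := ‖η‖ + ‖y‖ ^ q with hS
  have hS0 : 0 ≤ S := by positivity
  obtain ⟨x, hx⟩ : ∃ x : ℂ, x = (y' - y) / y := ⟨_, rfl⟩
  have hy' : y' = y * (1 + x) := by
    rw [hx]
    field_simp
    ring
  have e1 : ‖x - η - C * y ^ q‖ ≤ ε * S := by
    have e2 : y' - y - (η * y + C * y ^ (q + 1)) = y * (x - η - C * y ^ q) := by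
      rw [hy']
      ring
    rw [e2, norm_mul] at hy
    have e3 : ε * (‖η‖ * ‖y‖ + ‖y‖ ^ (q + 1)) = ‖y‖ * (ε * S) := by rw [hS]; ring
    rw [e3] at hy
    exact le_of_mul_le_mul_left hy hn
  have e2 : ‖x‖ ≤ (2 + ‖C‖) * S := by
    have e3 : x = η + C * y ^ q + (x - η - C * y ^ q) := by ring
    have e4 : ‖x‖ ≤ ‖η‖ + ‖C‖ * ‖y‖ ^ q + ε * S := by
      rw [e3]
      refine (norm_add_le _ _).trans (add_le_add ((norm_add_le _ _).trans ?_) ?_)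
      · rw [norm_mul, norm_pow]
      · exact e1
    have e5 : ε * S ≤ 1 * S := by gcongr
    have e6 : ‖C‖ * ‖y‖ ^ q ≤ ‖C‖ * S := by
      rw [hS]
      have := norm_nonneg η
      gcongr
      linarith
    have e7 : ‖η‖ ≤ S := by
      rw [hS]
      have : 0 ≤ ‖y‖ ^ q := by positivity
      linarith
    linarith
  have e3 : ‖x‖ ≤ 1 := e2.trans hsm
  have e4 := binom' q e3
  have e5 : q * C * y' ^ q - q * C * y ^ q * (1 + q * η + q * C * y ^ q) =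
      q * C * y ^ q * (((1 + x) ^ q - 1 - q * x) + q * (x - η - C * y ^ q)) := by
    rw [hy', mul_pow]
    ring
  rw [e5, norm_mul]
  refine mul_le_mul_of_nonneg_left ?_ (norm_nonneg _)
  refine (norm_add_le _ _).trans ?_
  rw [norm_mul, Complex.norm_natCast]
  have e6 : (2 : ℝ) ^ q * ‖x‖ ^ 2 ≤ 2 ^ q * ((2 + ‖C‖) * S) ^ 2 := by gcongr
  have e7 : (q : ℝ) * ‖x - η - C * y ^ q‖ ≤ q * (ε * S) := by gcongr
  calc _ ≤ 2 ^ q * ((2 + ‖C‖) * S) ^ 2 + q * (ε * S) := by linarith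
    _ = _ := by ring

/-- the coordinate -/
noncomputable def zc (q : ℕ) (C η y : ℂ) : ℂ := -(q * C * y ^ q + q * η / 2)

lemma nf {q : ℕ} {C : ℂ} {η : ℝ → ℂ} {G : ℝ → ℂ → ℂ} (hN : NearS q C η G) {ε r : ℝ} (hε : 0 < ε)
    (hr : 0 < r) : ∃ ρ : ℝ, 0 < ρ ∧ ∀ᶠ t in 𝓝[>] (0 : ℝ), ∀ y : ℂ, ‖zc q C (η t) y‖ ≤ ρ →
      ‖y‖ ≤ r ∧ ‖zc q C (η t) (G t y) - (zc q C (η t) y - (zc q C (η t) y ^ 2 -
        (q * η t / 2) ^ 2))‖ ≤ ε * (‖zc q C (η t) y‖ ^ 2 + ‖q * η t / 2‖ ^ 2) := by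
  have hq := hN.hq
  have hq0 : q ≠ 0 := by omega
  have hqR : (1 : ℝ) ≤ q := by exact_mod_cast hq
  have hC := hN.hC
  have hC0 : 0 < ‖C‖ := norm_pos_iff.2 hC
  obtain ⟨M, hM⟩ : ∃ M : ℝ, M = 2 + 1 / ‖C‖ := ⟨_, rfl⟩
  have hM0 : 0 < M := by rw [hM]; positivity
  obtain ⟨N, hNN⟩ : ∃ N : ℝ, N = 2 ^ q * (2 + ‖C‖) ^ 2 := ⟨_, rfl⟩
  have hN0 : 0 < N := by rw [hNN]; positivity
  obtain ⟨ε1, hε1⟩ : ∃ ε1 : ℝ, ε1 = min 1 (ε / (4 * M * q)) := ⟨_, rfl⟩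
  have hε10 : 0 < ε1 := by rw [hε1]; positivity
  have hε11 : ε1 ≤ 1 := by rw [hε1]; exact min_le_left _ _
  have hε12 : ε1 ≤ ε / (4 * M * q) := by rw [hε1]; exact min_le_right _ _
  rw [le_div_iff₀ (by positivity)] at hε12
  obtain ⟨r', hr', hG⟩ := hN.hG ε1 hε10
  obtain ⟨r1, hr1⟩ : ∃ r1 : ℝ, r1 = min r r' := ⟨_, rfl⟩
  have hr10 : 0 < r1 := by rw [hr1]; positivity
  -- the bound for `S`
  obtain ⟨σ, hσ⟩ : ∃ σ : ℝ, σ = min (r1 ^ q) (min (1 / (2 + ‖C‖)) (ε / (4 * M * N))) := ⟨_, rfl⟩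
  have hσ0 : 0 < σ := by rw [hσ]; positivity
  have hσ1 : σ ≤ r1 ^ q := by rw [hσ]; exact min_le_left _ _
  have hσ2 : σ ≤ 1 / (2 + ‖C‖) := by rw [hσ]; exact (min_le_right _ _).trans (min_le_left _ _)
  have hσ3 : σ ≤ ε / (4 * M * N) := by rw [hσ]; exact (min_le_right _ _).trans (min_le_right _ _)
  rw [le_div_iff₀ (by positivity)] at hσ2 hσ3
  refine ⟨σ / (2 * M), by positivity, ?_⟩
  have hη0 := hN.hη0.norm
  rw [norm_zero] at hη0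
  filter_upwards [hG, hη0.eventually (gt_mem_nhds (show 0 < σ / (2 * M * q) by positivity))]
    with t h1 h2 y hy
  set V : ℂ := q * C * y ^ q with hV
  set P : ℂ := q * η t / 2 with hP
  set z : ℂ := zc q C (η t) y with hz
  have hzV : z = -(V + P) := rfl
  set S : ℝ := ‖η t‖ + ‖y‖ ^ q with hS
  have hS0 : 0 ≤ S := by positivity
  have hPn : ‖P‖ = q * ‖η t‖ / 2 := by
    rw [hP, norm_div, norm_mul, Complex.norm_natCast]
    simp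
  have hVn : ‖V‖ = q * (‖C‖ * ‖y‖ ^ q) := by
    rw [hV, norm_mul, norm_mul, Complex.norm_natCast, norm_pow]
    ring
  have hVz : ‖V‖ ≤ ‖z‖ + ‖P‖ := by
    have : V = -z - P := by rw [hzV]; ring
    rw [this]
    refine (norm_sub_le _ _).trans ?_
    rw [norm_neg]
  have hP2 : ‖P‖ ≤ σ / (2 * M) / 2 := by
    rw [hPn]
    rw [lt_div_iff₀ (by positivity)] at h2
    rw [div_le_div_iff_of_pos_right (by norm_num), le_div_iff₀ (by positivity)]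
    linarith
  have hSM : S ≤ M * (‖z‖ + ‖P‖) := by
    have a1 : ‖η t‖ ≤ 2 * ‖P‖ := by
      rw [hPn]
      have := norm_nonneg (η t)
      nlinarith
    have a2 : ‖y‖ ^ q ≤ 1 / ‖C‖ * (‖z‖ + ‖P‖) := by
      rw [one_div, inv_mul_eq_div, le_div_iff₀ hC0]
      have a3 : ‖C‖ * ‖y‖ ^ q ≤ ‖V‖ := by
        rw [hVn]
        have : 0 ≤ ‖C‖ * ‖y‖ ^ q := by positivity
        nlinarith
      linarith
    rw [hM, hS]
    have := norm_nonneg z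
    linarith
  have hSσ : S ≤ σ := by
    refine hSM.trans ?_
    have a1 : ‖z‖ + ‖P‖ ≤ σ / M := by
      have a2 : σ / (2 * M) = σ / M / 2 := by field_simp
      rw [a2] at hy hP2
      have a3 : 0 < σ / M := by positivity
      linarith
    calc M * (‖z‖ + ‖P‖) ≤ M * (σ / M) := by gcongr
      _ = σ := by field_simp
  have hyr1 : ‖y‖ ≤ r1 := by
    have a1 : ‖y‖ ^ q ≤ r1 ^ q := by
      refine le_trans ?_ (hSσ.trans hσ1)
      rw [hS]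
      have := norm_nonneg (η t)
      linarith
    exact (pow_le_pow_iff_left₀ (norm_nonneg _) hr10.le hq0).1 a1
  refine ⟨hyr1.trans (by rw [hr1]; exact min_le_left _ _), ?_⟩
  have h3 := pt hq hε10.le hε11 (h1 y (hyr1.trans (by rw [hr1]; exact min_le_right _ _)))
    (by rw [← hS]; nlinarith [norm_nonneg C])
  rw [← hS, ← hV, ← hNN] at h3
  have e1 : zc q C (η t) (G t y) - (z - (z ^ 2 - P ^ 2)) =
      -(q * C * (G t y) ^ q - V * (1 + q * η t + V)) := by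
    have e2 : zc q C (η t) (G t y) = -(q * C * (G t y) ^ q + P) := rfl
    have e3 : (q : ℂ) * η t = 2 * P := by rw [hP]; ring
    rw [e2, hzV, e3]
    ring
  rw [e1, norm_neg]
  refine h3.trans ?_
  have h4 : (q * ε1 + N * S) * S ≤ ε / 2 * (‖z‖ + ‖P‖) := by
    have a1 : q * ε1 + N * S ≤ ε / (2 * M) := by
      rw [le_div_iff₀ (by positivity)]
      have a2 : N * S ≤ N * σ := by gcongr
      nlinarith
    calc (q * ε1 + N * S) * S ≤ ε / (2 * M) * (M * (‖z‖ + ‖P‖)) := by gcongr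
      _ = _ := by field_simp
  have h5 : 0 ≤ (q * ε1 + N * S) * S := by positivity
  calc ‖V‖ * ((q * ε1 + N * S) * S) ≤ (‖z‖ + ‖P‖) * (ε / 2 * (‖z‖ + ‖P‖)) := by gcongr
    _ = ε / 2 * (‖z‖ + ‖P‖) ^ 2 := by ring
    _ ≤ ε / 2 * (2 * (‖z‖ ^ 2 + ‖P‖ ^ 2)) := by
        gcongr
        nlinarith [sq_nonneg (‖z‖ - ‖P‖)]
    _ = _ := by ring

/-- capture: the orbits in the sector reach the sink -/
lemma core {q : ℕ} {C : ℂ} {η : ℝ → ℂ} {G : ℝ → ℂ → ℂ} (hN : NearS q C η G) {κ : ℝ} (hκ0 : 0 < κ)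
    (hκ1 : κ ≤ 1) {P : ℝ → ℂ} (hP : ∀ t, P t = q * η t / 2 ∨ P t = -(q * η t / 2))
    (hdir : ∀ᶠ t in 𝓝[>] (0 : ℝ), κ * ‖P t‖ ≤ (P t).re) {r : ℝ} (hr : 0 < r) :
    ∃ r1 : ℝ, 0 < r1 ∧ ∃ e : ℝ, 0 < e ∧ ∀ a : ℝ, 0 < a → ∀ r2 : ℝ, 0 < r2 →
    ∀ᶠ t in 𝓝[>] (0 : ℝ), ∀ y : ℂ, r2 ≤ ‖y‖ → ‖y‖ ≤ r1 → 0 < (-(q * C * y ^ q)⁻¹).re →
      |(-(q * C * y ^ q)⁻¹).im| ≤ e * (-(q * C * y ^ q)⁻¹).re →
      ∃ n : ℕ, (∀ j ≤ n, ‖(G t)^[j] y‖ ≤ r) ∧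
        ‖zc q C (η t) ((G t)^[n] y) - P t‖ < a * ‖P t‖ := by
  have hq := hN.hq
  have hq0 : q ≠ 0 := by omega
  have hqR : (1 : ℝ) ≤ q := by exact_mod_cast hq
  have hqC : (q : ℂ) ≠ 0 := by exact_mod_cast hq0
  have hC := hN.hC
  have hC0 : 0 < ‖C‖ := norm_pos_iff.2 hC
  have hP2 : ∀ t, P t ^ 2 = (q * η t / 2) ^ 2 := fun t => by
    rcases hP t with h | h <;> rw [h]
    ring
  have hPn : ∀ t, ‖P t‖ = ‖(q * η t / 2 : ℂ)‖ := fun t => by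
    rcases hP t with h | h <;> rw [h]
    rw [norm_neg]
  have hPn' : ∀ t, ‖P t‖ = q * ‖η t‖ / 2 := fun t => by
    rw [hPn, norm_div, norm_mul, Complex.norm_natCast]
    simp
  obtain ⟨ε0, hε0, r00, hr00, hS⟩ := scapt hκ0 hκ1
  obtain ⟨ρ, hρ, hnf⟩ := nf hN hε0 hr
  obtain ⟨r0, hr0⟩ : ∃ r0 : ℝ, r0 = min r00 ρ := ⟨_, rfl⟩
  have hr0p : 0 < r0 := by rw [hr0]; positivity
  have hr01 : r0 ≤ r00 := by rw [hr0]; exact min_le_left _ _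
  have hr02 : r0 ≤ ρ := by rw [hr0]; exact min_le_right _ _
  refine ⟨min 1 (r0 / (4 * q * ‖C‖)), by positivity, κ / 8, by positivity,
    fun a ha r2 hr2 => ?_⟩
  obtain ⟨μ, hμ, L, hL, hS1⟩ := hS r0 hr0p hr01 a ha
  obtain ⟨ρ', hρ', hnf'⟩ := nf hN (show 0 < μ / (L ^ 2 + 1) by positivity) hr
  obtain ⟨ρ2, hρ2⟩ : ∃ ρ2 : ℝ, ρ2 = q * (‖C‖ * r2 ^ q) := ⟨_, rfl⟩
  have hρ2p : 0 < ρ2 := by rw [hρ2]; positivity
  obtain ⟨δ, hδ, hS2⟩ := hS1 (ρ2 / 2) (by positivity)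
  have hPt : Tendsto (fun t => ‖P t‖) (𝓝[>] (0 : ℝ)) (𝓝 0) := by
    have := (hN.hη0.norm.const_mul (q : ℝ)).div_const 2
    simp only [norm_zero, mul_zero, zero_div] at this
    refine this.congr fun t => ?_
    rw [hPn']
  have hsm : 0 < min δ (min (min (r0 / 4) (ρ' / L)) (κ / 32 * ρ2)) := by positivity
  filter_upwards [hnf, hnf', hN.hη, hdir, hPt.eventually (gt_mem_nhds hsm)] with t n1 n2 n3 n4 n5
    y hy1 hy2 hy3 hy4
  have m1 : ‖P t‖ ≤ δ := n5.le.trans (min_le_left _ _)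
  have m2 : ‖P t‖ ≤ r0 / 4 :=
    n5.le.trans ((min_le_right _ _).trans ((min_le_left _ _).trans (min_le_left _ _)))
  have m3 : ‖P t‖ ≤ ρ' / L :=
    n5.le.trans ((min_le_right _ _).trans ((min_le_left _ _).trans (min_le_right _ _)))
  have m4 : ‖P t‖ ≤ κ / 32 * ρ2 :=
    n5.le.trans ((min_le_right _ _).trans (min_le_right _ _))
  rw [le_div_iff₀ hL] at m3
  have hp0 : P t ≠ 0 := by
    rw [← norm_pos_iff, hPn']
    have := norm_pos_iff.2 n3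
    positivity
  obtain ⟨hL1, hS3⟩ := hS2 (P t) hp0 m1 n4
  have hy0 : 0 < ‖y‖ := lt_of_lt_of_le hr2 hy1
  set V : ℂ := q * C * y ^ q with hV
  have hVn : ‖V‖ = q * (‖C‖ * ‖y‖ ^ q) := by
    rw [hV, norm_mul, norm_mul, Complex.norm_natCast, norm_pow]
    ring
  have hVρ : ρ2 ≤ ‖V‖ := by
    rw [hVn, hρ2]
    gcongr
  have hVr : ‖V‖ ≤ r0 / 4 := by
    rw [hVn]
    have a1 : ‖y‖ ≤ 1 := hy2.trans (min_le_left _ _)
    have a2 : ‖y‖ ≤ r0 / (4 * q * ‖C‖) := hy2.trans (min_le_right _ _)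
    have a3 : ‖y‖ ^ q ≤ ‖y‖ := pow_le_of_le_one (norm_nonneg _) a1 hq0
    calc (q : ℝ) * (‖C‖ * ‖y‖ ^ q) ≤ q * (‖C‖ * (r0 / (4 * q * ‖C‖))) := by
          gcongr
          exact a3.trans a2
      _ = _ := by field_simp
  have hVp : 0 < ‖V‖ := lt_of_lt_of_le hρ2p hVρ
  have hV0 : V ≠ 0 := norm_pos_iff.1 hVp
  set s : ℕ → ℂ := fun n => zc q C (η t) ((G t)^[n] y) with hs
  have hs0 : s 0 = -(V + q * η t / 2) := rfl
  have hs0' : ‖s 0 + V‖ = ‖P t‖ := by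
    rw [hs0, hPn, ← norm_neg]
    congr 1
    ring
  have hκρ : κ / 32 * ρ2 ≤ ρ2 / 32 := by nlinarith
  have b1 : ‖V‖ - ‖P t‖ ≤ ‖s 0‖ := by
    have := norm_sub_norm_le V (s 0 + V)
    have e1 : V - (s 0 + V) = -s 0 := by ring
    rw [e1, norm_neg, hs0'] at this
    exact this
  have b2 : ‖s 0‖ ≤ ‖V‖ + ‖P t‖ := by
    have := norm_sub_le (s 0 + V) V
    rw [add_sub_cancel_right, hs0'] at this
    linarith
  have b3 : ‖V‖ / 2 ≤ ‖s 0‖ := by linarith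
  have b0 : s 0 ≠ 0 := by
    rw [← norm_pos_iff]
    linarith
  -- the sector
  set W : ℂ := -V⁻¹ with hW
  have c1 : ‖(s 0)⁻¹ - W‖ ≤ κ / 16 * ‖W‖ := by
    have e1 : (s 0)⁻¹ - W = (s 0 + V) / (s 0 * V) := by
      rw [hW]
      field_simp
      ring
    rw [e1, norm_div, norm_mul, hs0', hW, norm_neg, norm_inv, div_le_iff₀ (by positivity)]
    have e2 : κ / 16 * ‖V‖⁻¹ * (‖s 0‖ * ‖V‖) = κ / 16 * ‖s 0‖ := by field_simp
    rw [e2]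
    have e3 : κ / 16 * (‖V‖ / 2) ≤ κ / 16 * ‖s 0‖ := by gcongr
    have e4 : κ / 32 * ρ2 ≤ κ / 32 * ‖V‖ := by gcongr
    linarith
  have c2 : ‖W‖ ≤ 2 * W.re := by
    have a1 := Complex.norm_le_abs_re_add_abs_im W
    rw [abs_of_pos hy3] at a1
    have a2 : κ / 8 * W.re ≤ 1 * W.re := by gcongr; linarith
    linarith
  have c3 : κ / 16 * ‖W‖ ≤ κ / 8 * W.re := by
    have : κ / 16 * ‖W‖ ≤ κ / 16 * (2 * W.re) := by gcongr
    linarith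
  have d1 : |((s 0)⁻¹ - W).re| ≤ κ / 8 * W.re := (Complex.abs_re_le_norm _).trans (c1.trans c3)
  have d2 : |((s 0)⁻¹ - W).im| ≤ κ / 8 * W.re := (Complex.abs_im_le_norm _).trans (c1.trans c3)
  rw [Complex.sub_re] at d1
  rw [Complex.sub_im] at d2
  have d3 := (abs_le.1 d1).1
  have d4 : κ / 8 * W.re ≤ 1 / 8 * W.re := by gcongr
  have f1 : 7 / 8 * W.re ≤ ((s 0)⁻¹).re := by linarith
  have f2 : |((s 0)⁻¹).im| ≤ κ / 2 * ((s 0)⁻¹).re := by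
    have g1 : |((s 0)⁻¹).im| ≤ |W.im| + κ / 8 * W.re := by
      have := abs_sub_abs_le_abs_sub ((s 0)⁻¹).im W.im
      linarith
    have g2 : κ / 2 * (7 / 8 * W.re) ≤ κ / 2 * ((s 0)⁻¹).re := by gcongr
    have g3 : 0 < κ * W.re := by positivity
    linarith
  obtain ⟨n, k1, k2⟩ := hS3 s
    (fun n hn => by
      have := (n1 ((G t)^[n] y) (hn.trans hr02)).2
      rw [← hPn, ← hP2] at this
      have e1 : s (n + 1) = zc q C (η t) (G t ((G t)^[n] y)) := by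
        simp only [hs]
        rw [Function.iterate_succ_apply']
      rw [e1]
      exact this)
    (fun n hn => by
      have := (n2 ((G t)^[n] y) (hn.trans (by linarith))).2
      rw [← hPn, ← hP2] at this
      have e1 : s (n + 1) = zc q C (η t) (G t ((G t)^[n] y)) := by
        simp only [hs]
        rw [Function.iterate_succ_apply']
      rw [e1]
      refine this.trans ?_
      have e2 : ‖s n‖ ^ 2 ≤ (L * ‖P t‖) ^ 2 := by gcongr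
      calc μ / (L ^ 2 + 1) * (‖s n‖ ^ 2 + ‖P t‖ ^ 2) ≤
            μ / (L ^ 2 + 1) * ((L * ‖P t‖) ^ 2 + ‖P t‖ ^ 2) := by gcongr
        _ = μ * ‖P t‖ ^ 2 := by field_simp)
    (by linarith) (by linarith) (by linarith) f2
  exact ⟨n, fun j hj => (n1 _ ((k1 j hj).trans hr02)).1, k2⟩

end Pool.Agent.Helper32.EP
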