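import Pool.Agent.Helper65.EP.Capture
import Pool.Agent.Helper65.EP.Stm3

/-! PACKAGE X3: capture of the orbits near a parabolic cycle with several petals. -/

set_option autoImplicit false
set_option maxHeartbeats 1000000

open Topology Filter Metric Set

namespace Pool.Agent.Helper32.EP

open Pool.Agent.Helper65.EP

/-- the second phase, for sequences -/
lemma sphase2 {s : ℕ → ℂ} {p : ℂ} {κ η a μ : ℝ} (hκ0 : 0 < κ) (hκ1 : κ ≤ 1) (hp0 : p ≠ 0)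
    (hp : κ * ‖p‖ ≤ p.re) (hη0 : 0 < η) (hη1 : η ≤ 1) (hs : ‖p‖ * (10 * (2 / η + 1)) ≤ κ)
    (ha0 : 0 < a) (hμ0 : 0 ≤ μ) (hμ : μ * (1 + a) ≤ κ * a / 8)
    (hg : ∀ n, ‖s n‖ ≤ 2 / η * ‖p‖ → ‖s (n + 1) - (s n - (s n ^ 2 - p ^ 2))‖ ≤ μ * ‖p‖ ^ 2)
    (hz : ‖s 0 - p‖ ≤ (1 - η) * ‖s 0 + p‖) :
    ∃ n : ℕ, (∀ j ≤ n, ‖s j‖ ≤ 2 / η * ‖p‖) ∧ ‖s n - p‖ < a * ‖p‖ := by
  have hp1 : 0 < ‖p‖ := norm_pos_iff.2 hp0
  have hK : 1 ≤ 2 / η := by rw [le_div_iff₀ hη0]; linarith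
  have hκp0 : 0 < κ * ‖p‖ := by positivity
  have hκp1 : κ * ‖p‖ ≤ 1 := by
    have : ‖p‖ * 10 ≤ ‖p‖ * (10 * (2 / η + 1)) := by gcongr; linarith
    nlinarith
  set t : ℝ := 1 - κ * ‖p‖ with ht
  have ht0 : 0 ≤ t := by linarith
  have ht1 : t < 1 := by linarith
  have hη1' : 0 ≤ 1 - η := by linarith
  have hle : ∀ n : ℕ, t ^ n * (1 - η) ≤ 1 - η := fun n =>
    mul_le_of_le_one_left hη1' (pow_le_one₀ ht0 ht1.le)
  have main : ∀ n : ℕ, (∀ j < n, a * ‖p‖ ≤ ‖s j - p‖) →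
      ‖s n - p‖ ≤ t ^ n * (1 - η) * ‖s n + p‖ := by
    intro n
    induction n with
    | zero => intro _; simpa using hz
    | succ n ih =>
      intro hj
      have h1 := ih fun j hjn => hj j (by omega)
      obtain ⟨g1, g2, g3⟩ := PL.geo hη0 (hle n) h1
      have h2 := PL.step2 (z := s n) (z' := s (n + 1)) hκ0 hκ1 hp hK g3 hs ha0 hμ0 hμ
        (by positivity) h1 (hj n (by omega)) g1 (hg _ g3)
      refine h2.trans_eq ?_
      rw [pow_succ]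
      ring
  have hex : ∃ n : ℕ, ‖s n - p‖ < a * ‖p‖ := by
    by_contra hcon
    push Not at hcon
    obtain ⟨n, hn⟩ := exists_pow_lt_of_lt_one (show 0 < a / (2 / η) by positivity) ht1
    have h1 := main n fun j _ => hcon j
    obtain ⟨g1, g2, g3⟩ := PL.geo hη0 (hle n) h1
    have h2 : t ^ n * (2 / η) < a := by
      rwa [lt_div_iff₀ (by positivity)] at hn
    have h3 : ‖s n - p‖ ≤ t ^ n * 1 * (2 / η * ‖p‖) := by
      refine h1.trans ?_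
      gcongr
      linarith
    have h4 : t ^ n * 1 * (2 / η * ‖p‖) < a * ‖p‖ := by
      calc t ^ n * 1 * (2 / η * ‖p‖) = t ^ n * (2 / η) * ‖p‖ := by ring
        _ < _ := by gcongr
    linarith [hcon n]
  classical
  refine ⟨Nat.find hex, fun j hj => ?_, Nat.find_spec hex⟩
  have h1 := main j fun i hi => not_lt.1 (Nat.find_min hex (lt_of_lt_of_le hi hj))
  exact (PL.geo hη0 (hle j) h1).2.2

/-- the first phase, for sequences -/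
lemma sphase1 {s : ℕ → ℂ} {p : ℂ} {K e r0 : ℝ} (he1 : e ≤ 1) (he0 : 0 < e) (hK : 2 ≤ K)
    (hp0 : p ≠ 0) (hpK : 2 * (K * ‖p‖) ≤ 1) (hg : ∀ n, K * ‖p‖ ≤ ‖s n‖ → ‖s n‖ ≤ r0 →
      s (n + 1) ≠ 0 ∧ ‖(s (n + 1))⁻¹ - (s n)⁻¹ - 1‖ ≤ e / 2)
    (hz1 : K * ‖p‖ ≤ ‖s 0‖) (hz2 : 2 * ‖s 0‖ ≤ r0) (h1 : 0 < ((s 0)⁻¹).re)
    (h2 : |((s 0)⁻¹).im| ≤ e * ((s 0)⁻¹).re) :
    ∃ n : ℕ, (∀ j ≤ n, ‖s j‖ ≤ r0) ∧ ‖s n‖ ≤ K * ‖p‖ ∧ K * ‖p‖ ≤ 2 * ‖s n‖ ∧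
      s n ≠ 0 ∧ 0 < ((s n)⁻¹).re ∧ |((s n)⁻¹).im| ≤ e * ((s n)⁻¹).re := by
  have hKp : 0 < K * ‖p‖ := by
    have := norm_pos_iff.2 hp0
    positivity
  have hz0 : 0 < ‖s 0‖ := lt_of_lt_of_le hKp hz1
  have hW0 : 1 / (2 * ‖s 0‖) ≤ ((s 0)⁻¹).re := by
    have a1 := Complex.norm_le_abs_re_add_abs_im (s 0)⁻¹
    rw [abs_of_pos h1, norm_inv] at a1
    have a2 : e * ((s 0)⁻¹).re ≤ 1 * ((s 0)⁻¹).re := by gcongr
    rw [one_div, mul_inv]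
    linarith
  have main : ∀ n : ℕ, (∀ j < n, K * ‖p‖ ≤ ‖s j‖) → ‖s n‖ ≤ r0 ∧ K * ‖p‖ ≤ 2 * ‖s n‖ ∧
      s n ≠ 0 ∧ ((s 0)⁻¹).re + n / 2 ≤ ((s n)⁻¹).re ∧
        |((s n)⁻¹).im| ≤ e * ((s n)⁻¹).re := by
    intro n
    induction n with
    | zero =>
      intro _
      simp only [Nat.cast_zero, zero_div, add_zero]
      exact ⟨by linarith, by linarith, norm_pos_iff.1 hz0, le_rfl, h2⟩
    | succ n ih =>
      intro hj
      obtain ⟨i1, i2, i3, i4, i5⟩ := ih fun j hjn => hj j (by omega)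
      obtain ⟨g1, g2⟩ := hg _ (hj n (by omega)) i1
      set w := s n with hw
      set V := (s (n + 1))⁻¹ with hV
      have b1 : |(V - w⁻¹ - 1).re| ≤ e / 2 := (Complex.abs_re_le_norm _).trans g2
      have b2 : |(V - w⁻¹ - 1).im| ≤ e / 2 := (Complex.abs_im_le_norm _).trans g2
      simp only [Complex.sub_re, Complex.one_re, Complex.sub_im, Complex.one_im, sub_zero] at b1 b2
      have c1 : (w⁻¹).re + 1 / 2 ≤ V.re := by
        have := (abs_le.1 b1).1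
        linarith
      have c2 : |V.im| ≤ e * V.re := by
        have d1 : |V.im| ≤ |(w⁻¹).im| + e / 2 := by
          have := abs_sub_abs_le_abs_sub V.im (w⁻¹).im
          linarith
        have d2 : e * ((w⁻¹).re + 1 / 2) ≤ e * V.re := by gcongr
        linarith
      have c3 : ((s 0)⁻¹).re + ((n + 1 : ℕ) : ℝ) / 2 ≤ V.re := by
        push_cast
        linarith
      have hn0 : (0 : ℝ) ≤ ((n + 1 : ℕ) : ℝ) / 2 := by positivity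
      have hVn : 1 / (2 * ‖s 0‖) ≤ ‖V‖ := by
        have := Complex.re_le_norm V
        linarith
      have hgw : ‖s (n + 1)‖ = ‖V‖⁻¹ := by rw [hV, norm_inv, inv_inv]
      have hV0 : 0 < ‖V‖ := lt_of_lt_of_le (by positivity) hVn
      refine ⟨?_, ?_, g1, c3, c2⟩
      · rw [hgw]
        refine le_trans (inv_anti₀ (by positivity) hVn) ?_
        rw [one_div, inv_inv]
        exact hz2
      · have d1 : ‖V‖ ≤ ‖w⁻¹‖ + 1 + e / 2 := by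
          have e1 : V = w⁻¹ + 1 + (V - w⁻¹ - 1) := by ring
          rw [e1]
          refine (norm_add_le _ _).trans (add_le_add ((norm_add_le _ _).trans ?_) g2)
          rw [norm_one]
        have d2 : ‖w⁻¹‖ ≤ (K * ‖p‖)⁻¹ := by
          rw [norm_inv]
          exact inv_anti₀ hKp (hj n (by omega))
        have d3 : 2 ≤ (K * ‖p‖)⁻¹ := by
          rw [le_inv_comm₀ (by norm_num) hKp]
          linarith
        have d4 : ‖V‖ ≤ 2 * (K * ‖p‖)⁻¹ := by linarith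
        rw [hgw, ← div_eq_mul_inv, le_div_iff₀ hV0]
        calc K * ‖p‖ * ‖V‖ ≤ K * ‖p‖ * (2 * (K * ‖p‖)⁻¹) := by gcongr
          _ = 2 := by field_simp
  have hex : ∃ n : ℕ, ‖s n‖ ≤ K * ‖p‖ := by
    by_contra hcon
    push Not at hcon
    obtain ⟨n, hn⟩ := exists_nat_gt (2 * (K * ‖p‖)⁻¹)
    obtain ⟨-, -, -, i4, -⟩ := main n fun j _ => (hcon j).le
    have h3 := Complex.re_le_norm (s n)⁻¹
    rw [norm_inv] at h3
    have h4 : ‖s n‖⁻¹ ≤ (K * ‖p‖)⁻¹ := inv_anti₀ hKp (hcon n).le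
    linarith
  classical
  have hm := fun j (hj : j ≤ Nat.find hex) =>
    main j fun i hi => (not_le.1 (Nat.find_min hex (lt_of_lt_of_le hi hj))).le
  obtain ⟨-, i2, i3, i4, i5⟩ := hm (Nat.find hex) le_rfl
  refine ⟨Nat.find hex, fun j hj => (hm j hj).1, Nat.find_spec hex, i2, i3, ?_, i5⟩
  have : (0 : ℝ) ≤ ((Nat.find hex : ℕ) : ℝ) / 2 := by positivity
  linarith

/-- both phases, for sequences -/
lemma scapt {κ : ℝ} (hκp : 0 < κ) (hκ1 : κ ≤ 1) : ∃ ε0 : ℝ, 0 < ε0 ∧ ∃ r00 : ℝ, 0 < r00 ∧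
    ∀ r0 : ℝ, 0 < r0 → r0 ≤ r00 → ∀ a : ℝ, 0 < a → ∃ μ : ℝ, 0 < μ ∧ ∃ L : ℝ, 0 < L ∧
    ∀ ρ : ℝ, 0 < ρ → ∃ δ : ℝ, 0 < δ ∧ ∀ p : ℂ, p ≠ 0 → ‖p‖ ≤ δ → κ * ‖p‖ ≤ p.re →
    L * ‖p‖ ≤ r0 ∧ ∀ s : ℕ → ℂ,
    (∀ n, ‖s n‖ ≤ r0 → ‖s (n + 1) - (s n - (s n ^ 2 - p ^ 2))‖ ≤ ε0 * (‖s n‖ ^ 2 + ‖p‖ ^ 2)) →
    (∀ n, ‖s n‖ ≤ L * ‖p‖ → ‖s (n + 1) - (s n - (s n ^ 2 - p ^ 2))‖ ≤ μ * ‖p‖ ^ 2) →
    ρ ≤ ‖s 0‖ → 2 * ‖s 0‖ ≤ r0 → 0 < ((s 0)⁻¹).re → |((s 0)⁻¹).im| ≤ κ / 2 * ((s 0)⁻¹).re →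
    ∃ n : ℕ, (∀ j ≤ n, ‖s j‖ ≤ r0) ∧ ‖s n - p‖ < a * ‖p‖ := by
  obtain ⟨e, he⟩ : ∃ e : ℝ, e = κ / 2 := ⟨_, rfl⟩
  have he0 : 0 < e := by rw [he]; positivity
  have he1 : e ≤ 1 / 2 := by linarith
  obtain ⟨K, hK⟩ : ∃ K : ℝ, K = 4 / e := ⟨_, rfl⟩
  have hKe : K * e = 4 := by rw [hK]; field_simp
  have hK4 : 8 ≤ K := by rw [hK, le_div_iff₀ he0]; linarith
  have hK0 : 0 < K := by linarith
  refine ⟨e / 16, by positivity, e / 64, by positivity, fun r0 hr0 hr00 a ha => ?_⟩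
  obtain ⟨η, hη⟩ : ∃ η : ℝ, η = κ / (8 * K) := ⟨_, rfl⟩
  have hη0 : 0 < η := by rw [hη]; positivity
  have hη1 : η ≤ 1 := by rw [hη, div_le_one (by positivity)]; linarith
  obtain ⟨μ, hμ⟩ : ∃ μ : ℝ, μ = κ * a / (8 * (1 + a)) := ⟨_, rfl⟩
  have hμ0 : 0 < μ := by rw [hμ]; positivity
  refine ⟨μ, hμ0, 2 / η, by positivity, fun ρ hρ => ?_⟩
  refine ⟨min (min (1 / (2 * K)) (ρ / K)) (min (κ / (10 * (2 / η + 1))) (r0 / (2 / η))),
    by positivity, fun p hp0 h4' hpre => ?_⟩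
  have hpp : 0 < ‖p‖ := norm_pos_iff.2 hp0
  have s1 : ‖p‖ ≤ 1 / (2 * K) := h4'.trans ((min_le_left _ _).trans (min_le_left _ _))
  have s2 : ‖p‖ ≤ ρ / K := h4'.trans ((min_le_left _ _).trans (min_le_right _ _))
  have s3 : ‖p‖ ≤ κ / (10 * (2 / η + 1)) := h4'.trans ((min_le_right _ _).trans (min_le_left _ _))
  have s4 : ‖p‖ ≤ r0 / (2 / η) := h4'.trans ((min_le_right _ _).trans (min_le_right _ _))
  rw [le_div_iff₀ (by positivity)] at s1 s2 s3 s4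
  refine ⟨by linarith, fun s hs1 hs2 hρs hs0 hre him => ?_⟩
  rw [← he] at him
  obtain ⟨n1, p1, p2, p3, p4, p5, p6⟩ := sphase1 (s := s) (p := p) (K := K) (e := e)
    (r0 := r0) (by linarith) he0 (by linarith) hp0 (by linarith) (fun n hw1 hw2 => by
      have hw0 : s n ≠ 0 := by
        rw [← norm_pos_iff]
        exact lt_of_lt_of_le (by positivity) hw1
      obtain ⟨q1, q2⟩ := PL.step1 (z := s n) (z' := s (n + 1)) (p := p) (K := K) (ε := e / 16)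
        (by linarith) (by linarith) (by linarith) hw0 hw1 (by linarith) (hs1 n hw2)
      refine ⟨q1, q2.trans ?_⟩
      have h8 : 1 / K ^ 2 ≤ e / 32 := by
        rw [div_le_div_iff₀ (by positivity) (by norm_num)]
        nlinarith
      linarith) (by linarith) hs0 hre him
  have htr := PL.trans12 (z := s n1) (p := p) (κ := κ) (e := e) (K := K) hκp hκ1 hpre
    he.le (by linarith) p2 p3 p4 p5 p6
  rw [← hη] at htr
  obtain ⟨n2, t1, t2⟩ := sphase2 (s := fun n => s (n + n1)) (p := p) (κ := κ) (η := η) (a := a)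
    (μ := μ) hκp hκ1 hp0 hpre hη0 hη1 s3 ha hμ0.le (by rw [hμ]; exact le_of_eq (by field_simp))
    (fun n hn => by
      have := hs2 (n + n1) hn
      rw [show n + 1 + n1 = n + n1 + 1 by ring]
      exact this) (by simpa using htr)
  refine ⟨n2 + n1, fun j hj => ?_, t2⟩
  rcases le_total j n1 with h | h
  · exact p1 j h
  · obtain ⟨i, rfl⟩ := Nat.exists_eq_add_of_le h
    have := t1 i (by omega)
    rw [add_comm i n1] at this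
    linarith

end Pool.Agent.Helper32.EP
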